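import Pool.Agent.Mg.Fc26281.G5e98d7

/-! Copolymer model at `alpha = 1/2`: localization for `h ≤ 0.73 lam` at weak coupling. -/

open MeasureTheory Filter Topology

namespace Pool.Agent.Results.MP_c26281_pr.Slope

theorem result (K : ℕ → ℝ) (c : ℝ) (hK : ∀ n, 0 ≤ K n) (hK0 : K 0 = 0) (hsum : HasSum K 1)
    (hc : 0 < c) (hT : Tendsto (fun n : ℕ => K n * (n : ℝ) ^ (3 / 2 : ℝ)) atTop (𝓝 c))
    (ν : Measure (ℕ × Bool)) [IsProbabilityMeasure ν] (hν : ∀ m s, ν.real {(m, s)} = K m / 2)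
    (μ : Measure ℝ) [IsProbabilityMeasure μ] (h1 : ∫ x, x ∂μ = 0) (h2 : ∫ x, x ^ 2 ∂μ = 1)
    (h3 : ∀ t : ℝ, Integrable (fun x => Real.exp (t * x)) μ) :
    ∃ lam0 > 0, ∀ lam ∈ Set.Ioo (0 : ℝ) lam0, ∀ h ≤ 73 / 100 * lam, ∃ δ > 0, ∀ᶠ N : ℕ in atTop,
      δ ≤ (1 / (N : ℝ)) * ∫ ω, Real.log (Pool.Agent.MP_c26281_pr.Z ν lam h N ω)
        ∂(Measure.infinitePi fun _ : ℕ => μ) :=
  Pool.Agent.MP_c26281_pr.main K c hK hK0 hsum hc hT ν hν μ ⟨h1, h2, h3⟩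

end Pool.Agent.Results.MP_c26281_pr.Slope
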