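import Pool.Agent.MP_c26281_pr.SA.Fin

/-! Copolymer model: the critical slope is `1/(1+α) + (2+o(1)) α^2` as `α → 0`.
The supremum below is the critical point `h_c(lam)`. -/

open MeasureTheory Filter Topology

namespace Pool.Agent.Results.MP_c26281_pr.SmallAlpha

theorem result (ε : ℝ) (hε : 0 < ε) : ∃ a0 > 0, ∀ α ∈ Set.Ioo (0 : ℝ) a0,
    ∀ (K : ℕ → ℝ) (c : ℝ), (∀ n, 0 ≤ K n) → K 0 = 0 → HasSum K 1 → 0 < c →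
    Tendsto (fun n : ℕ => K n * (n : ℝ) ^ (1 + α)) atTop (𝓝 c) →
    ∀ (ν : Measure (ℕ × Bool)) [IsProbabilityMeasure ν], (∀ m s, ν.real {(m, s)} = K m / 2) →
    ∀ (μ : Measure ℝ) [IsProbabilityMeasure μ], ∫ x, x ∂μ = 0 → ∫ x, x ^ 2 ∂μ = 1 →
    (∀ t : ℝ, Integrable (fun x => Real.exp (t * x)) μ) →
    ∃ lam0 > 0, ∀ lam ∈ Set.Ioo (0 : ℝ) lam0,
      |sSup {h : ℝ | ∃ δ > 0, ∀ᶠ N : ℕ in atTop,
          δ ≤ (1 / (N : ℝ)) * ∫ ω, Real.log (Pool.Agent.MP_c26281_pr.Z ν lam h N ω)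
            ∂(Measure.infinitePi fun _ : ℕ => μ)} / lam
        - (1 / (1 + α) + 2 * α ^ 2)| ≤ ε * α ^ 2 := by
  obtain ⟨a1, p1, h1⟩ := Pool.Agent.MP_c26281_pr.SA.low ε hε
  obtain ⟨a2, p2, h2⟩ := Pool.Agent.MP_c26281_pr.SA.up ε hε
  refine ⟨min a1 a2, lt_min p1 p2, fun α hα K c k1 k2 k3 k4 k5 ν _ hν μ _ m1 m2 m3 => ?_⟩
  obtain ⟨l1, q1, g1⟩ := h1 α hα.1 (hα.2.trans_le (min_le_left _ _)) K c ⟨k1, k2, k3, k4, k5⟩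
    ν hν μ ⟨m1, m2, m3⟩
  obtain ⟨l2, q2, g2⟩ := h2 α hα.1 (hα.2.trans_le (min_le_right _ _)) K c ⟨k1, k2, k3, k4, k5⟩
    ν hν μ ⟨m1, m2, m3⟩
  refine ⟨min l1 l2, lt_min q1 q2, fun lam hl => ?_⟩
  have lo := g1 lam hl.1 (hl.2.trans_le (min_le_left _ _)) _ le_rfl
  have hi : ∀ h ∈ {h : ℝ | ∃ δ > 0, ∀ᶠ N : ℕ in atTop,
      δ ≤ (1 / (N : ℝ)) * ∫ ω, Real.log (Pool.Agent.MP_c26281_pr.Z ν lam h N ω)
        ∂(Measure.infinitePi fun _ : ℕ => μ)}, h ≤ (1 / (1 + α) + (2 + ε) * α ^ 2) * lam := by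
    rintro h ⟨δ, d0, d1⟩
    by_contra hc
    exact absurd (ge_of_tendsto
      (g2 lam hl.1 (hl.2.trans_le (min_le_right _ _)) h (not_le.1 hc).le) d1) (not_le.2 d0)
  have b1 := le_csSup ⟨_, hi⟩ (a := (1 / (1 + α) + (2 - ε) * α ^ 2) * lam) lo
  have b2 := csSup_le ⟨(1 / (1 + α) + (2 - ε) * α ^ 2) * lam, lo⟩ hi
  rw [← le_div_iff₀ hl.1] at b1
  rw [← div_le_iff₀ hl.1] at b2
  rw [abs_le]
  constructor <;> linarith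

end Pool.Agent.Results.MP_c26281_pr.SmallAlpha
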